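import Pool.Agent.H276R3.Hard

/-!
# Recognising generalised median stable matchings is PP-complete

`GM` is the problem of deciding, for a stable marriage instance and a stable matching `M` of it,
whether `M` is one of the generalised median stable matchings. It belongs to `PP`, it is hard for
`PP` under polynomial-time many-one reductions (whose outputs are legal inputs), and it belongs to
`NP` if and only if `NP = PP`.
-/

namespace Pool.Agent.Results.MP_63b90e_lc.PPComplete

open Pool.Agent.NPC Pool.Agent.NPC.Med Pool.Agent.H276R3

theorem result :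
    InPPc (lang GM) ∧
    (∀ L : Set (List Bool), InPPc L → ∃ f : List Bool → Inst × List ℕ,
      PolyTime (fun x => bits (f x)) ∧ (∀ x, GMInput (f x)) ∧ ∀ x, x ∈ L ↔ GM (f x)) ∧
    (InNP (lang GM) ↔ ∀ L : Set (List Bool), InPPc L ↔ InNP L) := by
  refine ⟨G276.GM_inPP, fun L hL => G276.GM_hard hL, ?_⟩
  rw [G276.GM_iff_pp]
  exact ⟨fun h L => ⟨h L, G276.np_sub_pp⟩, fun h L => (h L).1⟩

end Pool.Agent.Results.MP_63b90e_lc.PPComplete
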